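import Pool.Agent.H500.SV.Stm
import Pool.Graph.R_seed8.W352.ChAbs.Main

/-!
# Part 7 of project SV (helper500): densities in extensions
-/

set_option autoImplicit false

namespace Pool.Agent.H549.SV.Lift

open NumberField IsDedekindDomain Filter Topology
open Pool.Agent.W401.Cheb (dens)

section

variable {E : Type} [Field E] [NumberField E]

/-- the number of primes above a prime of `ℤ` -/
theorem card_over (p : Ideal ℤ) [hp : p.IsMaximal] :
    (p.primesOver (𝓞 E)).ncard ≤ Module.finrank ℤ (𝓞 E) := by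
  have hfin : (p.primesOver (𝓞 E)).Finite := IsDedekindDomain.primesOver_finite p (𝓞 E)
  have : Fintype (p.primesOver (𝓞 E)) := hfin.fintype
  rw [← Ideal.sum_ramification_inertia_eq_finrank p (𝓞 E), ← Nat.card_coe_set_eq,
    Nat.card_eq_fintype_card, Fintype.card_eq_sum_ones]
  refine Finset.sum_le_sum fun q _ => ?_
  have : q.1.IsPrime := q.2.1
  exact Nat.mul_pos (Ideal.ramificationIdx_pos q.1 ℤ) (Ideal.inertiaDeg_pos q.1 ℤ)

theorem norm_ne_zero (v : HeightOneSpectrum (𝓞 E)) : Ideal.absNorm v.asIdeal ≠ 0 := by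
  rw [Ne, Ideal.absNorm_eq_zero_iff]
  exact v.ne_bot

end

variable {E E' : Type} [Field E] [NumberField E] [Field E'] [NumberField E'] (i : E →+* E')

/-- the place below `w` -/
noncomputable def down (w : HeightOneSpectrum (𝓞 E')) : HeightOneSpectrum (𝓞 E) where
  asIdeal := w.asIdeal.comap (RingOfIntegers.mapRingHom i)
  isPrime := by
    have := w.isPrime
    exact Ideal.comap_isPrime _ _
  ne_bot := by
    intro h
    have h1 : ((Ideal.absNorm w.asIdeal : ℕ) : 𝓞 E) ∈ w.asIdeal.comap (RingOfIntegers.mapRingHom i) := by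
      rw [Ideal.mem_comap, map_natCast]
      exact Ideal.absNorm_mem _
    rw [h, Ideal.mem_bot, Nat.cast_eq_zero] at h1
    exact norm_ne_zero w h1

theorem down_norm (w : HeightOneSpectrum (𝓞 E')) :
    Ideal.absNorm (down i w).asIdeal ≤ Ideal.absNorm w.asIdeal := by
  have h0 := norm_ne_zero w
  rw [Ideal.absNorm_apply, Submodule.cardQuot_apply] at h0 ⊢
  rw [Ideal.absNorm_apply, Submodule.cardQuot_apply]
  have : Finite (𝓞 E' ⧸ w.asIdeal) := Nat.finite_of_card_ne_zero h0
  refine Nat.card_le_card_of_injective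
    (Ideal.quotientMap (I := (down i w).asIdeal) w.asIdeal (RingOfIntegers.mapRingHom i) le_rfl) ?_
  exact Ideal.quotientMap_injective

theorem down_int (w : HeightOneSpectrum (𝓞 E')) :
    w.asIdeal.comap (algebraMap ℤ (𝓞 E')) = (down i w).asIdeal.comap (algebraMap ℤ (𝓞 E)) := by
  show _ = (w.asIdeal.comap (RingOfIntegers.mapRingHom i)).comap (algebraMap ℤ (𝓞 E))
  rw [Ideal.comap_comap]
  congr 1
  exact RingHom.ext_int _ _

theorem int_max (v : HeightOneSpectrum (𝓞 E)) : (v.asIdeal.comap (algebraMap ℤ (𝓞 E))).IsMaximal := by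
  have h1 : (v.asIdeal.comap (algebraMap ℤ (𝓞 E))).IsPrime := by
    have := v.isPrime
    exact Ideal.comap_isPrime _ _
  refine h1.isMaximal ?_
  intro h
  have h2 : ((Ideal.absNorm v.asIdeal : ℕ) : ℤ) ∈ v.asIdeal.comap (algebraMap ℤ (𝓞 E)) := by
    rw [Ideal.mem_comap, map_natCast]
    exact Ideal.absNorm_mem _
  rw [h, Ideal.mem_bot, Nat.cast_eq_zero] at h2
  exact norm_ne_zero v h2

theorem fib (v : HeightOneSpectrum (𝓞 E)) (s : Finset (HeightOneSpectrum (𝓞 E')))
    (hs : ∀ w ∈ s, down i w = v) : s.card ≤ Module.finrank ℤ (𝓞 E') := by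
  classical
  have := int_max v
  set p := v.asIdeal.comap (algebraMap ℤ (𝓞 E)) with hp
  have hfin : (p.primesOver (𝓞 E')).Finite := IsDedekindDomain.primesOver_finite p (𝓞 E')
  refine le_trans ?_ (card_over (E := E') p)
  rw [← Finset.card_image_of_injective s (f := fun w => w.asIdeal)
    (fun a b h => HeightOneSpectrum.ext h), ← Set.ncard_coe_finset]
  refine Set.ncard_le_ncard ?_ hfin
  intro I hI
  rw [Finset.mem_coe, Finset.mem_image] at hI
  obtain ⟨w, hw, rfl⟩ := hI
  refine ⟨w.isPrime, ⟨?_⟩⟩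
  rw [hp, ← hs w hw, ← down_int i w]

theorem main : Pool.Agent.H500.SV.S_Lift := by
  classical
  intro E E' _ _ _ _ i Good hG
  set C := Module.finrank ℤ (𝓞 E') with hC
  set Q : HeightOneSpectrum (𝓞 E') → Prop := fun lam' => ¬ ∃ lam : HeightOneSpectrum (𝓞 E), Good lam ∧
    lam'.asIdeal.comap (RingOfIntegers.mapRingHom i) = lam.asIdeal with hQ
  have h0 : Tendsto (fun N : ℕ => (C : ℝ) * dens (fun lam => ¬ Good lam) N) atTop (𝓝 0) := by
    simpa using hG.const_mul (C : ℝ)
  refine squeeze_zero (fun N => ?_) (fun N => ?_) h0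
  · unfold dens
    positivity
  · unfold dens
    rw [mul_div_assoc']
    apply div_le_div_of_nonneg_right _ (Nat.cast_nonneg _)
    have hf : {v : HeightOneSpectrum (𝓞 E) | Ideal.absNorm v.asIdeal ≤ N ∧ ¬ Good v}.Finite :=
      (Pool.Agent.W352.ChAbs.finite_le (K := E) N).subset (fun v hv => hv.1)
    have hf' : {w : HeightOneSpectrum (𝓞 E') | Ideal.absNorm w.asIdeal ≤ N ∧ Q w}.Finite :=
      (Pool.Agent.W352.ChAbs.finite_le (K := E') N).subset (fun v hv => hv.1)
    have h1 : hf'.toFinset.card ≤ C * hf.toFinset.card := by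
      refine Finset.card_le_mul_card_image_of_maps_to (f := down i) ?_ C ?_
      · intro w hw
        rw [Set.Finite.mem_toFinset] at hw ⊢
        refine ⟨(down_norm i w).trans hw.1, fun hg => hw.2 ⟨down i w, hg, rfl⟩⟩
      · intro v _
        exact fib i v _ fun w hw => (Finset.mem_filter.1 hw).2
    have e1 : Nat.card {w : HeightOneSpectrum (𝓞 E') // Ideal.absNorm w.asIdeal ≤ N ∧ Q w} =
        hf'.toFinset.card := by
      rw [← Set.ncard_eq_toFinset_card _ hf', ← Nat.card_coe_set_eq]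
      rfl
    have e2 : Nat.card {v : HeightOneSpectrum (𝓞 E) // Ideal.absNorm v.asIdeal ≤ N ∧ ¬ Good v} =
        hf.toFinset.card := by
      rw [← Set.ncard_eq_toFinset_card _ hf, ← Nat.card_coe_set_eq]
      rfl
    have h2 : Nat.card {w : HeightOneSpectrum (𝓞 E') // Ideal.absNorm w.asIdeal ≤ N ∧ Q w} ≤
        C * Nat.card {v : HeightOneSpectrum (𝓞 E) // Ideal.absNorm v.asIdeal ≤ N ∧ ¬ Good v} := by
      rw [e1, e2]
      exact h1
    exact_mod_cast h2

end Pool.Agent.H549.SV.Lift
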